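import Mathlib

set_option autoImplicit false

open Set Filter Topology

namespace Pool.Agent.H.MP_d91817_gt

def ww (y : ℕ) : ℕ := y - Nat.sqrt y * Nat.sqrt y + Nat.sqrt y

def tau (y : ℕ) : ℕ := (ww y / 4) * (ww y / 4) + Nat.sqrt y / 4

def gg (n : ℕ) : ℕ := if n % 2 = 0 then 2 * tau (n / 2) + 1 else n

theorem sq_add_inj {a b c d : ℕ} (h1 : a ≤ b) (h2 : c ≤ d) (h : b * b + a = d * d + c) :
    b = d ∧ a = c := by
  have : b = d := by
    rcases lt_trichotomy b d with h3 | h3 | h3
    · nlinarith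
    · exact h3
    · nlinarith
  subst this
  exact ⟨rfl, by omega⟩

theorem fibre (c : ℕ) : {n | gg n = c}.encard ≤ 32 := by
  have h : InjOn (fun n : ℕ => (n % 2, Nat.sqrt (n / 2) % 4, ww (n / 2) % 4)) {n | gg n = c} := by
    intro n hn k hk e
    simp only [mem_ofPred_eq, Prod.mk.injEq, gg] at hn hk e
    obtain ⟨e1, e2, e3⟩ := e
    by_cases h : n % 2 = 0
    · rw [if_pos h] at hn
      rw [if_pos (e1 ▸ h)] at hk
      have := sq_add_inj (a := Nat.sqrt (n / 2) / 4) (b := ww (n / 2) / 4)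
        (c := Nat.sqrt (k / 2) / 4) (d := ww (k / 2) / 4) (by unfold ww; omega)
        (by unfold ww; omega) (by unfold tau at hn hk; omega)
      have e4 : Nat.sqrt (n / 2) = Nat.sqrt (k / 2) := by omega
      have e5 : ww (n / 2) = ww (k / 2) := by omega
      have h1 := Nat.sqrt_le (n / 2)
      have h2 := Nat.sqrt_le (k / 2)
      unfold ww at e5
      rw [e4] at e5 h1
      omega
    · rw [if_neg h] at hn
      rw [if_neg (e1 ▸ h)] at hk
      omega
  rw [← h.encard_image]
  refine (encard_le_encard (t := ((Finset.range 2 ×ˢ Finset.range 4 ×ˢ Finset.range 4 :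
    Finset (ℕ × ℕ × ℕ)) : Set (ℕ × ℕ × ℕ))) ?_).trans ?_
  · rintro _ ⟨n, -, rfl⟩
    simp only [Finset.coe_product, Finset.coe_range, mem_prod, mem_Iio]
    omega
  · rw [encard_coe_eq_coe_finsetCard]; simp

theorem comb (m : ℕ) : ∃ M N : ℕ, 0 < M ∧ ∀ z, N ≤ z → ∃ p q : ℕ → ℕ,
    (∀ j ≤ m, z ≤ q j ∧ q j ≤ z + M ∧ p j < z ∧ gg (p j) = gg (q j)) ∧
    ∀ j l, j < l → l ≤ m → p j + M ≤ p l := by
  obtain ⟨r, hr⟩ : ∃ r, 40 * m + 40 ≤ r := ⟨_, le_rfl⟩
  refine ⟨16 * m + 4, 2 * (r * r), by omega, fun z hz => ?_⟩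
  obtain ⟨s, y, h1, h2, h3, h4, h5⟩ : ∃ s y, s * s ≤ y ∧ y + 4 * m < (s + 1) * (s + 1) ∧
      z ≤ 2 * y ∧ 2 * y ≤ z + 1 + 8 * m ∧ 40 * m + 40 ≤ s := by
    have a1 := Nat.sqrt_le ((z + 1) / 2 + 4 * m)
    have a2 := Nat.lt_succ_sqrt ((z + 1) / 2 + 4 * m)
    have a3 : 40 * m + 40 ≤ Nat.sqrt ((z + 1) / 2 + 4 * m) := hr.trans (Nat.le_sqrt.2 (by omega))
    generalize Nat.sqrt ((z + 1) / 2 + 4 * m) = s at a1 a2 a3
    by_cases h : s * s ≤ (z + 1) / 2
    · exact ⟨s, (z + 1) / 2, h, a2, by omega, by omega, a3⟩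
    · exact ⟨s, s * s, le_rfl, by nlinarith, by omega, by omega, a3⟩
  have hs : ∀ j ≤ m, Nat.sqrt (y + 4 * j) = s := by
    intro j hj
    exact (Nat.eq_sqrt.2 ⟨by omega, by omega⟩).symm
  obtain ⟨b, hb1, hb2, hb⟩ : ∃ b, s ≤ 4 * b + 3 ∧ 4 * (b + m) ≤ 3 * s ∧
      ∀ j ≤ m, tau (y + 4 * j) = (b + j) * (b + j) + s / 4 := by
    refine ⟨(y - s * s + s) / 4, by omega, ?_, fun j hj => ?_⟩
    · have : (s + 1) * (s + 1) = s * s + 2 * s + 1 := by ring
      omega
    · have : ww (y + 4 * j) / 4 = (y - s * s + s) / 4 + j := by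
        unfold ww; rw [hs j hj]; omega
      unfold tau; rw [this, hs j hj]
  refine ⟨fun j => 2 * tau (y + 4 * j) + 1, fun j => 2 * (y + 4 * j), fun j hj => ⟨by beta_reduce; omega,
    by beta_reduce; omega, ?_, ?_⟩, fun j l hjl hl => ?_⟩
  · show 2 * tau (y + 4 * j) + 1 < z
    rw [hb j hj]
    have e1 : 4 * (b + j) ≤ 3 * s := by omega
    have e2 : 16 * ((b + j) * (b + j)) ≤ 9 * (s * s) := by nlinarith
    have e3 : 40 * s ≤ s * s := by nlinarith
    omega
  · unfold gg
    beta_reduce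
    rw [if_neg (by omega), if_pos (by omega), Nat.mul_div_cancel_left _ (by norm_num)]
  · show 2 * tau (y + 4 * j) + 1 + (16 * m + 4) ≤ 2 * tau (y + 4 * l) + 1
    rw [hb j (by omega), hb l hl]
    have : (b + j) * (b + j) + 2 * b + 1 ≤ (b + l) * (b + l) := by nlinarith
    omega

noncomputable def aa (n : ℕ) : ℝ := 1 / ((n : ℝ) + 1)

theorem aa_anti : StrictAnti aa := by
  intro a b h
  unfold aa
  exact one_div_lt_one_div_of_lt (by positivity) (by exact_mod_cast Nat.succ_lt_succ h)

theorem aa_pos (n : ℕ) : 0 < aa n := by unfold aa; positivity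

theorem aa_le (n : ℕ) : aa n ≤ 1 := by
  have := aa_anti.antitone (Nat.zero_le n)
  simpa [aa] using this

theorem aa_lim : Tendsto aa atTop (𝓝 0) := tendsto_one_div_add_atTop_nhds_zero_nat

theorem gg_lim : Tendsto gg atTop atTop := by
  rw [← Nat.cofinite_eq_atTop]
  exact Tendsto.cofinite_of_finite_preimage_singleton
    (fun c => finite_of_encard_le_coe (k := 32) (fibre c))

theorem exists_f : ∃ f : ℝ → ℝ × ℝ × ℝ, Continuous f ∧ (∀ y, {x | f x = y}.encard ≤ 32) ∧
    ∀ p q, gg p = gg q → f (aa p) = f (aa q) := by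
  let e := OnePoint.continuousMapMkNat aa 0 aa_lim
  let φ := OnePoint.continuousMapMkNat (aa ∘ gg) 0 (aa_lim.comp gg_lim)
  have einj : Function.Injective e := by
    intro a b h
    induction a using OnePoint.rec with
    | infty =>
      induction b using OnePoint.rec with
      | infty => rfl
      | coe b => exact absurd h (aa_pos b).ne
    | coe a =>
      induction b using OnePoint.rec with
      | infty => exact absurd h (aa_pos a).ne'
      | coe b => exact congrArg _ (aa_anti.injective h)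
  have he : IsClosedEmbedding e := e.continuous.isClosedEmbedding einj
  obtain ⟨G, hG⟩ := φ.exists_extension' he
  have h0 : ∀ x, Metric.infDist x (range e) = 0 ↔ x ∈ range e := fun x =>
    (he.isClosed_range.mem_iff_infDist_zero (range_nonempty _)).symm
  refine ⟨fun x => (Metric.infDist x (range e), x * Metric.infDist x (range e), G x), ?_, ?_, ?_⟩
  · have := Metric.continuous_infDist_pt (range e)
    fun_prop
  · rintro ⟨d, u, c⟩
    by_cases hd : d = 0
    · by_cases hc : ∃ k, c = aa k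
      · obtain ⟨k, rfl⟩ := hc
        refine le_trans (encard_le_encard ?_) ((encard_image_le aa _).trans (fibre k))
        intro x hx
        simp only [mem_ofPred_eq, Prod.mk.injEq] at hx
        obtain ⟨p, rfl⟩ := (h0 x).1 (hx.1.trans hd)
        have := (congrFun hG p).symm.trans hx.2.2
        induction p using OnePoint.rec with
        | infty => exact absurd this (aa_pos k).ne
        | coe p => exact ⟨p, aa_anti.injective this, rfl⟩
      · refine le_trans (encard_le_encard (t := {0}) ?_) (by simp)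
        intro x hx
        simp only [mem_ofPred_eq, Prod.mk.injEq] at hx
        obtain ⟨p, rfl⟩ := (h0 x).1 (hx.1.trans hd)
        have := (congrFun hG p).symm.trans hx.2.2
        induction p using OnePoint.rec with
        | infty => rfl
        | coe p => exact absurd ⟨_, this.symm⟩ hc
    · refine le_trans (encard_le_encard (t := {u / d}) ?_) (by simp)
      intro x hx
      simp only [mem_ofPred_eq, Prod.mk.injEq] at hx
      rw [mem_singleton_iff, eq_div_iff hd, ← hx.2.1, hx.1]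
  · intro p q h
    have hp : Metric.infDist (aa p) (range e) = 0 := (h0 _).2 ⟨p, rfl⟩
    have hq : Metric.infDist (aa q) (range e) = 0 := (h0 _).2 ⟨q, rfl⟩
    have gp : G (aa p) = aa (gg p) := congrFun hG p
    have gq : G (aa q) = aa (gg q) := congrFun hG q
    simp only [hp, hq, gp, gq, h, mul_zero]

theorem cover (k : ℕ) (t : ℕ → ℝ) (x : ℝ) (h0 : t 0 ≤ x) (hk : 0 < k) (h1 : x ≤ t k) :
    ∃ i, i < k ∧ x ∈ Icc (t i) (t (i + 1)) := by
  induction k with
  | zero => omega
  | succ k ih =>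
    by_cases h : t k ≤ x
    · exact ⟨k, by omega, h, h1⟩
    · rcases Nat.eq_zero_or_pos k with rfl | hk'
      · exact absurd h0 h
      · obtain ⟨i, hi, hi'⟩ := ih hk' (not_le.1 h).le
        exact ⟨i, by omega, hi'⟩

theorem main {Y : Type} (f : ℝ → Y) (hf : ∀ p q, gg p = gg q → f (aa p) = f (aa q)) :
    ¬ ∃ m : ℕ, 0 < m ∧ ∀ ε : ℝ, 0 < ε →
        ∃ (k : ℕ) (t : ℕ → ℝ), 0 < k ∧ t 0 = 0 ∧ t k = 1 ∧
          (∀ i, i < k → t i < t (i + 1) ∧ t (i + 1) - t i < ε) ∧
          ∀ i, i < k →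
            {j : ℕ | j < k ∧
              (f '' Set.Icc (t i) (t (i + 1)) ∩ f '' Set.Icc (t j) (t (j + 1))).Nonempty}.encard
              ≤ (m : ℕ∞) := by
  rintro ⟨m, -, h⟩
  obtain ⟨M, N, hM, hc⟩ := comb m
  obtain ⟨k, t, hk, t0, t1, ht, hm⟩ := h (aa N * aa (N + 1)) (mul_pos (aa_pos _) (aa_pos _))
  have hβ : ∀ n, ∃ i, i < k ∧ aa n ∈ Icc (t i) (t (i + 1)) := fun n =>
    cover k t _ (by rw [t0]; exact (aa_pos n).le) hk (by rw [t1]; exact aa_le n)
  choose β hβ1 hβ2 using hβ
  have key : ∀ z, ∀ i, i < k → aa z ≤ t (i + 1) → t i ≤ aa (z + M) → False := by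
    intro z
    induction z using Nat.strong_induction_on with
    | _ z ih =>
      intro i hi h1 h2
      by_cases hz : N ≤ z
      · obtain ⟨p, q, hpq, hsp⟩ := hc z hz
        have hinj : InjOn (fun j => β (p j)) (Iic m) := by
          have : ∀ j l, j < l → l ≤ m → β (p j) ≠ β (p l) := by
            intro j l hjl hl e
            refine ih (p j) (hpq j (by omega)).2.2.1 _ (hβ1 (p j)) (hβ2 _).2 ?_
            rw [e]
            exact (hβ2 _).1.trans (aa_anti.antitone (hsp j l hjl hl))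
          intro j hj l hl e
          rcases lt_trichotomy j l with h | h | h
          · exact absurd e (this j l h hl)
          · exact h
          · exact absurd e.symm (this l j h hj)
        have := (encard_le_encard (s := (fun j => β (p j)) '' Iic m) ?_).trans (hm i hi)
        · rw [hinj.encard_image, ← Finset.coe_Iic, encard_coe_eq_coe_finsetCard] at this
          simp only [Nat.card_Iic, Nat.cast_le] at this
          omega
        · rintro _ ⟨j, hj, rfl⟩
          obtain ⟨a1, a2, -, a4⟩ := hpq j hj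
          exact ⟨hβ1 _, f (aa (p j)), ⟨aa (q j), ⟨h2.trans (aa_anti.antitone a2),
            (aa_anti.antitone a1).trans h1⟩, (hf _ _ a4).symm⟩, _, hβ2 _, rfl⟩
      · have e1 : aa z - aa (z + 1) = aa z * aa (z + 1) := by
          unfold aa; push_cast; field_simp; ring
        have e2 : aa N * aa (N + 1) ≤ aa z * aa (z + 1) :=
          mul_le_mul (aa_anti.antitone (by omega)) (aa_anti.antitone (by omega)) (aa_pos _).le
            (aa_pos _).le
        have e3 : aa (z + M) ≤ aa (z + 1) := aa_anti.antitone (by omega)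
        have := (ht i hi).2
        linarith
  have := (ht 0 hk).1
  obtain ⟨z, hz⟩ := (aa_lim.eventually (gt_mem_nhds (t0 ▸ this))).exists
  exact key z 0 hk hz.le (by rw [t0]; exact (aa_pos _).le)

end Pool.Agent.H.MP_d91817_gt
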